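import Pool.Agent.Lib.MP_80f35e_co.Cut

set_option autoImplicit false

namespace Pool.Agent.Results.MP_80f35e_co.FarFromUnion

open Pool.Agent.Lib.MP_80f35e_co Finset

/-- In an extremal Ramsey graph on `n = R(m,m) - 1` vertices, any `t ≥ 2` pairwise disjoint vertex
sets with at least `0.96 n / t` vertices each span at least `n ^ 2 / (4000000 t ^ 2 m)` adjacent
ordered pairs in different sets. The hypotheses do not change when `G` is replaced by its
complement. -/
theorem result :
    ∀ m : ℕ, 1000 ≤ m → ∀ n : ℕ, ∀ G : SimpleGraph (Fin n),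
      G.CliqueFree m → Gᶜ.CliqueFree m →
      (∀ H : SimpleGraph (Fin (n + 1)), ¬ (H.CliqueFree m ∧ Hᶜ.CliqueFree m)) →
      ∀ t : ℕ, 2 ≤ t → ∀ A : Fin t → Finset (Fin n),
        (∀ i j, i ≠ j → Disjoint (A i) (A j)) → (∀ i, 24 * n ≤ 25 * t * (A i).card) →
        n ^ 2 ≤ 4000000 * t ^ 2 * m * {p : Fin n × Fin n |
          ∃ i j, i ≠ j ∧ p.1 ∈ A i ∧ p.2 ∈ A j ∧ G.Adj p.1 p.2}.ncard := by
  classical
  intro m hm n G h1 h2 hext t ht A hd hA
  obtain ⟨k, rfl⟩ : ∃ k, m = k + 2 := ⟨m - 2, by omega⟩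
  have h := cut_bound (by omega) ht hext Gᶜ h2 (by rwa [compl_compl]) A hA
  refine h.trans (le_of_eq ?_)
  congr 1
  rw [← Set.ncard_coe_finset]
  congr 1
  ext p
  simp only [coe_filter, mem_univ, true_and, SimpleGraph.compl_adj, Set.mem_ofPred_eq, not_and,
    not_not]
  refine exists_congr fun i => exists_congr fun j => and_congr_right fun ij =>
    and_congr_right fun a => and_congr_right fun b => ⟨fun h => h ?_, fun h _ => h⟩
  intro e
  exact disjoint_left.1 (hd i j ij) a (e ▸ b)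

end Pool.Agent.Results.MP_80f35e_co.FarFromUnion
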