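import Pool.Agent.Lib.MP_80f35e_co.Mixed

set_option autoImplicit false

namespace Pool.Agent.Results.MP_80f35e_co.MixedCherry

open Pool.Agent.Lib.MP_80f35e_co Finset

/-- For every `κ > 1 / √2` there is a set `S` of positive lower density such that, for every
`ε > 0` and all large `m ∈ S`, the following holds. If no graph on `N + 1` vertices avoids both
cliques and independent sets of size `m` (for instance `N = R(m,m) - 1`), `G` avoids both, and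
`A`, `B`, `C` have at least `ε N` vertices each, then at most `κ |A| |B| |C|` triples
`(a, b, c) ∈ A × B × C` have `a b` an edge and `a c` an edge of the complement. -/
theorem result :
    ∀ κ : ℝ, 1 / √2 < κ → ∃ S : Set ℕ,
      (∃ c : ℝ, 0 < c ∧ ∃ M₀ : ℕ, ∀ M : ℕ, M₀ ≤ M →
        c * (M : ℝ) ≤ ({m : ℕ | m ∈ S ∧ m < M}.ncard : ℝ)) ∧
      ∀ ε : ℝ, 0 < ε → ∃ m₀ : ℕ, ∀ m ∈ S, m₀ ≤ m → ∀ N : ℕ,
        (∀ H : SimpleGraph (Fin (N + 1)), ¬ (H.CliqueFree m ∧ Hᶜ.CliqueFree m)) →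
        ∀ n : ℕ, ∀ G : SimpleGraph (Fin n), G.CliqueFree m → Gᶜ.CliqueFree m →
        ∀ A B C : Finset (Fin n),
          ε * (N : ℝ) ≤ (A.card : ℝ) → ε * (N : ℝ) ≤ (B.card : ℝ) → ε * (N : ℝ) ≤ (C.card : ℝ) →
          ({p : Fin n × Fin n × Fin n | p.1 ∈ A ∧ p.2.1 ∈ B ∧ p.2.2 ∈ C ∧
              G.Adj p.1 p.2.1 ∧ Gᶜ.Adj p.1 p.2.2}.ncard : ℝ) ≤
            κ * ((A.card : ℝ) * (B.card : ℝ) * (C.card : ℝ)) := by
  classical
  intro κ hκ
  obtain ⟨S, hS, h⟩ := mixed_bound κ hκ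
  refine ⟨S, hS, fun ε hε => ?_⟩
  obtain ⟨m₀, h⟩ := h ε hε
  refine ⟨m₀, fun m hm hm0 N hN n G g1 g2 A B C hA hB hC => ?_⟩
  refine le_of_eq_of_le ?_ (h m hm hm0 N hN G Gᶜ rfl g1 g2 A B C hA hB hC)
  rw [← Set.ncard_coe_finset]
  congr 2
  ext p
  simp [and_assoc]

end Pool.Agent.Results.MP_80f35e_co.MixedCherry
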